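import Pool.Agent.L0h32.UX.Stm

/-!
# Project UX, module BND: the invariants imply the bounds
-/

set_option autoImplicit false
set_option linter.all false

namespace Pool.Agent.L0h55.UX

open Relation
open Pool.Agent.H630R2.LA (LimAut Sym Cfg Step init initTape WS lrel bitS ix nr Ann keep)
open Pool.Agent.L0h32.UX

section generic

variable {P : Type} {S : P → Prop} {Eg : ℕ → P → P → Prop} {wt : ℕ → P → P → ℕ} {R : ℕ}

theorem gpw_le (hR : ∀ j p q, wt j p q ≤ R) :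
    ∀ (j : ℕ) (p : P) (v : ℕ), GPw S Eg wt j p v → v ≤ j * R
  | 0, p, v, h => by
    obtain ⟨-, rfl⟩ := h
    exact Nat.zero_le _
  | j + 1, q, v, h => by
    obtain ⟨p, u, hu, -, rfl⟩ := h
    have h1 := gpw_le hR j p u hu
    have h2 := hR j p q
    rw [Nat.succ_mul]
    omega

theorem gdm_le (hR : ∀ j p q, wt j p q ≤ R) (j : ℕ) (p : P) : GDm S Eg wt j p ≤ j * R := by
  unfold GDm
  by_cases h : {v | GPw S Eg wt j p v}.Nonempty
  · exact gpw_le (S := S) (Eg := Eg) hR j p _ (Nat.sInf_mem h)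
  · rw [Set.not_nonempty_iff_eq_empty] at h
    rw [h, Nat.sInf_empty]
    exact Nat.zero_le _

end generic

section mach

variable {A : Type} {h : ℕ} {rel : A → Fin (2 ^ h) → Fin (2 ^ h) → Bool} {p0 : Fin (2 ^ h)}
  {facc : Fin (2 ^ h) → Bool} {K : ℕ} {W : ℕ → ℕ → Fin (2 ^ h) → Fin (2 ^ h) → ℕ} {R N : ℕ}

theorem cnL_le (w : List A) (β l y : ℕ) : cnL h rel p0 w β l y ≤ 2 ^ h := by
  unfold cnL
  exact (Finset.card_le_univ _).trans_eq (Fintype.card_fin _)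

theorem smL_le (hR : ∀ i j p q, W i j p q ≤ R) (w : List A) (β i l y : ℕ) :
    smL h rel p0 W w β i l y ≤ 2 ^ h * (l * R) := by
  unfold smL
  refine (Finset.sum_le_card_nsmul _ _ (l * R) fun q _ => gdm_le (hR i) l q).trans ?_
  rw [smul_eq_mul]
  exact Nat.mul_le_mul_right _ ((Finset.card_le_univ _).trans_eq (Fintype.card_fin _))

theorem wok_k {w : List A} {t : ℕ} {x : Wr} (hx : WOK h rel p0 w t x) : x.k < 2 ^ h := by
  rw [hx.2.1]
  exact Nat.mod_lt _ (Nat.pos_of_ne_zero (pow_ne_zero h two_ne_zero))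

theorem wok_bd {w : List A} {t : ℕ} {x : Wr} (hN : 2 ^ h ≤ N) (hx : WOK h rel p0 w t x) :
    BdW N x := by
  have hk := wok_k hx
  obtain ⟨-, -, h3, h4, -⟩ := hx
  refine ⟨by omega, ?_, ?_⟩
  · rw [h3]
    split_ifs
    · exact Nat.zero_le _
    · exact (cnL_le w _ _ _).trans hN
  · rw [h4]
    exact (cnL_le w _ _ _).trans hN

theorem ly_le {x : Wr} (hk : x.k < 2 ^ h) (fin : Bool) : LL h x fin ≤ 2 * 2 ^ h := by
  unfold LL
  split_ifs <;> omega

theorem ee_le {x : Wr} (hk : x.k < 2 ^ h) (fin : Bool) : EE h x fin ≤ 2 * 2 ^ h := by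
  unfold EE
  split_ifs <;> omega

open Classical in
theorem mok_bd (hR : ∀ i j p q, W i j p q ≤ R) (hK : K ≤ N) (hQ : 2 * 2 ^ h + 1 ≤ N)
    (hM : 2 ^ h * ((2 * 2 ^ h + 1) * R) ≤ N) {w : List A} {t : ℕ} {m : Mem}
    (hm : MOK h rel p0 facc K W w t m) : BdM N m := by
  obtain ⟨hx, -, -, hi, hl, hc, hs, -, hy, hcn, hsn, -, hz, -, -, ⟨Z, g, hZ, hd, he, hr⟩, -⟩ := hm
  have hk := wok_k hx
  have hl2 : m.l ≤ 2 * 2 ^ h := hl.trans (ly_le hk m.fin)
  have h1 : 1 ≤ 2 ^ h := Nat.one_le_two_pow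
  have hlR : m.l * R ≤ (2 * 2 ^ h + 1) * R := Nat.mul_le_mul_right _ (by omega)
  have hlR1 : (m.l + 1) * R ≤ (2 * 2 ^ h + 1) * R := Nat.mul_le_mul_right _ (by omega)
  have hM1 : (2 * 2 ^ h + 1) * R ≤ 2 ^ h * ((2 * 2 ^ h + 1) * R) := Nat.le_mul_of_pos_left _ h1
  refine ⟨wok_bd (by omega) hx, by omega, by omega, ?_, ?_, by omega, ?_, ?_, by omega, ?_, ?_, ?_⟩
  · rw [hc]
    have := cnL_le (rel := rel) (p0 := p0) w (bt h t m) m.l (2 ^ h)
    omega
  · rw [hs]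
    refine (smL_le hR w _ _ _ _).trans (le_trans ?_ hM)
    exact Nat.mul_le_mul_left _ hlR
  · rw [hcn]
    have := cnL_le (rel := rel) (p0 := p0) w (bt h t m) (m.l + 1) m.y
    omega
  · rw [hsn]
    refine (smL_le hR w _ _ _ _).trans (le_trans ?_ hM)
    exact Nat.mul_le_mul_left _ hlR1
  · rw [hd]
    have := (Finset.card_le_univ Z).trans_eq (Fintype.card_fin _)
    omega
  · rw [he]
    refine (Finset.sum_le_card_nsmul _ _ (m.l * R) fun q hq =>
      gpw_le (hR m.i) m.l q _ (hZ q hq).2).trans ?_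
    rw [smul_eq_mul]
    refine le_trans ?_ hM
    exact Nat.mul_le_mul ((Finset.card_le_univ Z).trans_eq (Fintype.card_fin _)) hlR
  · obtain ⟨-, h2, h3⟩ := hr
    cases hh : m.r.has
    · rw [(h2 hh).2]
      exact Nat.zero_le _
    · obtain ⟨⟨q, hq, hqm⟩, -, -⟩ := h3 hh
      rw [← hqm]
      have h4 := gpw_le (hR m.i) m.l q _ (hZ q (Finset.mem_filter.1 hq).1).2
      have h5 := hR m.i m.l q (ix h m.y)
      rw [Nat.succ_mul] at hlR1
      simp only []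
      omega

/-- **BND** -/
theorem t_BND : S_BND := by
  intro A h rel p0 facc K W R N hR hN
  have h1 : 1 ≤ 2 ^ h := Nat.one_le_two_pow
  have hK : K ≤ N := by omega
  have hQ : 2 * 2 ^ h + 1 ≤ N := by
    have h2 : 2 * 2 ^ h + 1 ≤ (2 * 2 ^ h + 1) * (R + 2) := Nat.le_mul_of_pos_right _ (by omega)
    have h3 : (2 * 2 ^ h + 1) * (R + 2) ≤ 2 ^ h * ((2 * 2 ^ h + 1) * (R + 2)) :=
      Nat.le_mul_of_pos_left _ h1
    omega
  have hM : 2 ^ h * ((2 * 2 ^ h + 1) * R) ≤ N := by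
    have h2 : 2 ^ h * ((2 * 2 ^ h + 1) * R) ≤ 2 ^ h * ((2 * 2 ^ h + 1) * (R + 2)) :=
      Nat.mul_le_mul_left _ (Nat.mul_le_mul_left _ (by omega))
    omega
  refine ⟨?_, fun w t x hx => wok_bd (by omega) hx⟩
  intro w t s x hs
  have hmok : ∀ m, MOK h rel p0 facc K W w t m → BdM N m := fun m hm => mok_bd hR hK hQ hM hm
  have hee : ∀ m, MOK h rel p0 facc K W w t m → EE h m.x m.fin ≤ N := fun m hm => by
    have := ee_le (h := h) (wok_k hm.1) m.fin
    omega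
  have hl2 : ∀ m, MOK h rel p0 facc K W w t m → m.l ≤ 2 * 2 ^ h := fun m hm =>
    hm.2.2.2.2.1.trans (ly_le (wok_k hm.1) m.fin)
  cases s with
  | wr x' => exact hs.elim
  | hm m => exact hmok m hs.1
  | h1 m => exact hmok m hs.1
  | rA m i =>
    obtain ⟨h2, -, -, -, h3, -⟩ := hs
    exact ⟨hmok m h2, h3.trans (hee m h2)⟩
  | rB m p i =>
    obtain ⟨h2, -, -, -, h3, -⟩ := hs
    exact ⟨hmok m h2, h3.trans (hee m h2)⟩
  | rC m p v i =>
    obtain ⟨h2, -, -, -, h3, h4, -, h5⟩ := hs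
    have h6 := hl2 m h2
    refine ⟨hmok m h2, ?_, by omega⟩
    have h7 := gpw_le (hR m.i) (i - 1) p v h5
    have h8 : (i - 1) * R ≤ (2 * 2 ^ h + 1) * R := Nat.mul_le_mul_right _ (by omega)
    have h9 : (2 * 2 ^ h + 1) * R ≤ 2 ^ h * ((2 * 2 ^ h + 1) * R) := Nat.le_mul_of_pos_left _ h1
    omega
  | rR m i =>
    obtain ⟨h2, h3, -⟩ := hs
    exact ⟨hmok m h2, h3.trans (hee m h2)⟩
  | ex x' => exact wok_bd (by omega) hs.1
  | f1 b => trivial
  | fin b => trivial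

end mach

end Pool.Agent.L0h55.UX
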